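import Pool.Agent.H.MP_e06b60_al.D

set_option autoImplicit false

namespace Pool.Agent.Results.MP_e06b60_al.Counter
open Pool.Agent.H.MP_e06b60_al

theorem result : ∃ p : ℕ, p.Prime ∧ ∃ (G : Type) (_ : Group G) (_ : TopologicalSpace G)
    (_ : IsTopologicalGroup G), IsProP p G ∧ Infinite G ∧
    Nonempty ((G ⧸ lcs G (2 * p)) ≃ₜ* (Nott p ⧸ lcs (Nott p) (2 * p))) ∧
    IsEmpty (G ≃* Nott p) :=
  ⟨2, Nat.prime_two, G, inferInstance, inferInstance, inferInstance, main⟩

end Pool.Agent.Results.MP_e06b60_al.Counter
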